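import Pool.Agent.W2helper26.MC.Stm

/-!
# Project MC, piece COMB: few points where all the nodes compute the majority of their block
-/

set_option autoImplicit false

namespace Pool.Agent.W2helper11.MC

open Finset Pool.Agent.W2helper86.MD Pool.Agent.W2helper26.MC

theorem p_comb : P_comb := by
  intro hdp hcnt hvers p k m D ℓ s _ C o hs hs1 hd hℓ hsm hk
  classical
  have hp2 : 2 ≤ p := (Fact.out : p.Prime).two_le
  have hp1 : 1 ≤ ℓ * (p - 1) := Nat.mul_pos hℓ (by omega)
  obtain ⟨P, hP, Bad, hBad, hval⟩ := approx C hs hℓ (fun _ => 1) (fun _ => zero_le_one)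
  set N := 8 * m * (2 * k + 1) with hN
  -- the bad set
  have hcardI : ∑ _x : Fin (8 * m) × Fin (2 * k + 1) → Bool, (1 : ℝ) = 2 ^ N := by
    rw [Finset.sum_const, nsmul_eq_mul, mul_one, Finset.card_univ]
    simp [hN, Fintype.card_prod]
  have hB1 : Bad.card * p ^ ℓ ≤ s * 2 ^ N := by
    rw [hcardI, Finset.sum_const, nsmul_eq_mul, mul_one] at hBad
    exact_mod_cast hBad
  have hB2 : Bad.card * 2 ^ m ≤ 2 ^ N := by
    have h1 : s * (Bad.card * 2 ^ m) ≤ s * 2 ^ N := by
      calc s * (Bad.card * 2 ^ m) = Bad.card * (s * 2 ^ m) := by ring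
        _ ≤ Bad.card * p ^ ℓ := Nat.mul_le_mul_left _ hsm
        _ ≤ s * 2 ^ N := hB1
    exact Nat.le_of_mul_le_mul_left h1 (by omega)
  -- the good set
  set Δ := (ℓ * (p - 1)) ^ D with hΔ
  have hdeg : ∀ i, Deg Δ (P (o i)) := fun i =>
    (hP (o i)).mono (Nat.pow_le_pow_right hp1 (hd i))
  have h2 := hdp p k (8 * m) Δ (majF k) (hvers p k) (fun i => P (o i)) hdeg
  have h3 := hcnt k m Δ hk
  have h4 : (univ.filter (fun x : Fin (8 * m) × Fin (2 * k + 1) → Bool =>
      ∀ i, P (o i) x = bv (ZMod p) (majF k (fun a => x (i, a))))).card * 2 ^ m ≤ 2 ^ N :=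
    (Nat.mul_le_mul_right _ h2).trans h3
  have hsub : (univ.filter (fun x : Fin (8 * m) × Fin (2 * k + 1) → Bool =>
      ∀ i, C.val (o i) x = majF k (fun a => x (i, a)))) ⊆
      Bad ∪ (univ.filter (fun x : Fin (8 * m) × Fin (2 * k + 1) → Bool =>
      ∀ i, P (o i) x = bv (ZMod p) (majF k (fun a => x (i, a))))) := by
    intro x hx
    rw [Finset.mem_union]
    by_cases hxB : x ∈ Bad
    · exact Or.inl hxB
    · right
      rw [Finset.mem_filter] at hx ⊢
      refine ⟨Finset.mem_univ _, fun i => ?_⟩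
      rw [hval x hxB, hx.2 i]
  have h5 := (Finset.card_le_card hsub).trans (Finset.card_union_le _ _)
  calc _ ≤ (Bad.card + (univ.filter (fun x : Fin (8 * m) × Fin (2 * k + 1) → Bool =>
      ∀ i, P (o i) x = bv (ZMod p) (majF k (fun a => x (i, a))))).card) * 2 ^ m :=
        Nat.mul_le_mul_right _ h5
    _ ≤ 2 * 2 ^ N := by
      rw [add_mul]
      omega

end Pool.Agent.W2helper11.MC
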