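import Pool.Agent.W2helper26.MC.Stm

/-!
# Project MC, piece NUM: asymptotics
-/

set_option autoImplicit false

namespace Pool.Agent.W2helper11.MC

open Filter Topology Pool.Agent.W2helper26.MC

theorem poly_exp (P : Polynomial ℕ) : ∀ c : ℕ, ∀ᶠ u : ℕ in atTop, c * P.eval u ≤ 2 ^ u := by
  induction P using Polynomial.induction_on' with
  | add P Q hP hQ =>
    intro c
    filter_upwards [hP (2 * c), hQ (2 * c)] with u h1 h2
    rw [Polynomial.eval_add]
    nlinarith
  | monomial n a =>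
    intro c
    have h := tendsto_pow_const_div_const_pow_of_one_lt n (r := (2 : ℝ)) (by norm_num)
    have hpos : (0 : ℝ) < 1 / ((c : ℝ) * a + 1) := by positivity
    filter_upwards [h.eventually (gt_mem_nhds hpos)] with u hu
    rw [Polynomial.eval_monomial]
    have h2 : (0 : ℝ) < 2 ^ u := by positivity
    rw [div_lt_div_iff₀ h2 (by positivity), one_mul] at hu
    have h3 : ((c * (a * u ^ n) : ℕ) : ℝ) ≤ ((2 ^ u : ℕ) : ℝ) := by
      push_cast
      have h4 : (0 : ℝ) ≤ (u : ℝ) ^ n := by positivity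
      nlinarith
    exact_mod_cast h3

theorem p_num : P_num := by
  intro T Q D p n₀ δ hδ
  set c : ℕ := 8 * (D + 1) with hc
  obtain ⟨N, hN⟩ := exists_pow_lt_of_lt_one hδ (show (1 / 2 : ℝ) < 1 by norm_num)
  have hev : ∀ a : ℕ, ∀ P : Polynomial ℕ, ∀ᶠ u : ℕ in atTop, a * P.eval (c * u) ≤ 2 ^ u := by
    intro a P
    have h := poly_exp (P.comp (Polynomial.C c * Polynomial.X)) a
    simpa [Polynomial.eval_comp] using h
  obtain ⟨u, h1, h2, h3, h4, h5⟩ := ((hev 1 T).and ((hev 8 (Q + Polynomial.C N)).and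
    ((hev 1 (Polynomial.C (p - 1))).and ((eventually_ge_atTop n₀).and
      (eventually_ge_atTop 13))))).exists
  refine ⟨c * u, u, ?_, by omega, ?_, ?_, ?_⟩
  · rw [hc]; nlinarith
  · rw [hc]; nlinarith
  · rw [one_mul] at h1
    rw [Polynomial.eval_C, one_mul] at h3
    have h6 : (T.eval (c * u) + 2 ^ u) * (p - 1) ≤ 2 ^ (3 * u) := by
      calc (T.eval (c * u) + 2 ^ u) * (p - 1) ≤ (2 ^ u + 2 ^ u) * 2 ^ u :=
            Nat.mul_le_mul (by omega) h3
        _ = 2 ^ (2 * u + 1) := by rw [pow_succ, two_mul, pow_add]; ring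
        _ ≤ 2 ^ (3 * u) := Nat.pow_le_pow_right (by norm_num) (by omega)
    have h7 : 4096 * (((T.eval (c * u) + 2 ^ u) * (p - 1)) ^ D) ^ 2 ≤
        2 ^ (12 + 6 * u * D) := by
      calc 4096 * (((T.eval (c * u) + 2 ^ u) * (p - 1)) ^ D) ^ 2
          ≤ 4096 * ((2 ^ (3 * u)) ^ D) ^ 2 := by gcongr
        _ = 2 ^ (12 + 6 * u * D) := by
          rw [← pow_mul, ← pow_mul, pow_add, show 3 * u * (D * 2) = 6 * u * D by ring]
          norm_num
    have h8 : 12 + 6 * u * D + 1 ≤ c * u := by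
      rw [hc]
      nlinarith [Nat.zero_le (u * D)]
    have h9 : 2 ^ (12 + 6 * u * D) * 2 ≤ 2 ^ (c * u) := by
      rw [← pow_succ]
      exact Nat.pow_le_pow_right (by norm_num) h8
    have h10 : 1 ≤ 2 ^ (12 + 6 * u * D) := Nat.one_le_two_pow
    omega
  · have h6 : Q.eval (c * u) + N ≤ 2 ^ (u - 3) := by
      rw [Polynomial.eval_add, Polynomial.eval_C] at h2
      have h7 : 2 ^ u = 8 * 2 ^ (u - 3) := by
        rw [show (8 : ℕ) = 2 ^ 3 by norm_num, ← pow_add]
        congr 1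
        omega
      omega
    have h7 : ((1 : ℝ) / 2) ^ (2 ^ (u - 3)) ≤ (1 / 2) ^ (Q.eval (c * u) + N) :=
      pow_le_pow_of_le_one (by norm_num) (by norm_num) h6
    calc (2 : ℝ) ^ (Q.eval (c * u)) * (1 / 2 : ℝ) ^ (2 ^ (u - 3))
        ≤ (2 : ℝ) ^ (Q.eval (c * u)) * (1 / 2) ^ (Q.eval (c * u) + N) := by gcongr
      _ = (1 / 2) ^ N := by
        rw [pow_add, ← mul_assoc, ← mul_pow]
        norm_num
      _ ≤ δ := hN.le

end Pool.Agent.W2helper11.MC
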