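import Pool.Agent.W2helper26.MC.Stm

/-!
# Project MC, piece VERS: majority is versatile (Smolensky)
-/

set_option autoImplicit false

namespace Pool.Agent.W2helper11.MC

open Finset Pool.Agent.W2helper86.MD Pool.Agent.W2helper26.MC

section
variable {K : Type} [Field K] {n : ℕ}

theorem deg_not {I : Type} {k : ℕ} {f : (I → Bool) → K} (h : Deg k f) :
    Deg k (fun x => f (fun i => !x i)) := by
  unfold Deg at h
  induction h using Submodule.span_induction with
  | mem f hf =>
    obtain ⟨A, hA, h⟩ := hf
    refine Deg.of_jun ⟨A, hA, fun x y hxy => ?_⟩
    exact h _ _ fun i hi => by rw [hxy i hi]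
  | zero =>
    have : (fun x : I → Bool => (0 : (I → Bool) → K) (fun i => !x i)) = fun _ => (0 : K) := by
      funext x; simp
    rw [this]
    exact Deg.const _ _
  | add a b _ _ ha hb =>
    have : (fun x : I → Bool => (a + b) (fun i => !x i)) =
        fun x => a (fun i => !x i) + b (fun i => !x i) := by
      funext x; simp
    rw [this]
    exact ha.add hb
  | smul c a _ ha =>
    have : (fun x : I → Bool => (c • a) (fun i => !x i)) = fun x => c * a (fun i => !x i) := by
      funext x; simp
    rw [this]
    exact ha.smul c

/-- interpolation on the points of small weight -/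
theorem low (f : (Fin n → Bool) → K) (k : ℕ) : ∀ j : ℕ, j ≤ k + 1 →
    ∃ g : (Fin n → Bool) → K, Deg k g ∧ ∀ x, wt x < j → g x = f x := by
  classical
  intro j
  induction j with
  | zero =>
    intro _
    exact ⟨fun _ => 0, Deg.const _ _, fun x hx => absurd hx (Nat.not_lt_zero _)⟩
  | succ j ih =>
    intro hj
    obtain ⟨g, hg, hgf⟩ := ih (by omega)
    let S : Finset (Fin n → Bool) := univ.filter (fun y => wt y = j)
    let supp : (Fin n → Bool) → Finset (Fin n) := fun y => univ.filter (fun a => y a = true)
    refine ⟨fun x => g x + ∑ y ∈ S, (f y - g y) * mon (supp y) x, ?_, ?_⟩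
    · apply hg.add
      apply Deg.sum
      intro y hy
      apply Deg.smul
      apply Deg.mon
      have h1 : wt y = j := (Finset.mem_filter.1 hy).2
      show wt y ≤ k
      omega
    · intro x hx
      have key : ∀ y ∈ S, y ≠ x → (f y - g y) * mon (K := K) (supp y) x = 0 := by
        intro y hy hyx
        have h1 : wt y = j := (Finset.mem_filter.1 hy).2
        have h2 : ∃ i ∈ supp y, x i = false := by
          by_contra hcon
          push Not at hcon
          have h3 : supp y ⊆ supp x := by
            intro i hi
            have := hcon i hi
            simpa [supp] using this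
          have h4 : supp y = supp x := Finset.eq_of_subset_of_card_le h3 (by
            show wt x ≤ wt y
            omega)
          apply hyx
          funext i
          have h5 : i ∈ supp y ↔ i ∈ supp x := by rw [h4]
          simp only [supp, Finset.mem_filter, Finset.mem_univ, true_and] at h5
          cases h6 : y i <;> cases h7 : x i <;> simp [h6, h7] at h5 ⊢
        obtain ⟨i, hi, hxi⟩ := h2
        rw [mon_false hi hxi, mul_zero]
      show g x + ∑ y ∈ S, (f y - g y) * mon (supp y) x = f x
      by_cases hxj : wt x = j
      · have hxS : x ∈ S := Finset.mem_filter.2 ⟨Finset.mem_univ _, hxj⟩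
        rw [Finset.sum_eq_single x (fun y hy hyx => key y hy hyx) (fun h => absurd hxS h)]
        have h3 : mon (K := K) (supp x) x = 1 := mon_true (fun i hi => by
          simpa [supp] using hi)
        rw [h3]; ring
      · rw [Finset.sum_eq_zero, add_zero]
        · exact hgf x (by omega)
        · intro y hy
          apply key y hy
          rintro rfl
          exact hxj (Finset.mem_filter.1 hy).2

end

theorem p_vers : P_vers := by
  intro p k _ f
  obtain ⟨g, hg, hgf⟩ := low f k (k + 1) le_rfl
  obtain ⟨h, hh, hhf⟩ := low (fun x => f (fun i => !x i)) k (k + 1) le_rfl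
  refine ⟨g, fun x => h (fun i => !x i) - g x, hg, (deg_not hh).sub hg, fun x => ?_⟩
  have hw := wt_not x
  by_cases hx : k < wt x
  · have h1 : majF k x = true := by simp [majF, hx]
    have h2 := hhf (fun i => !x i) (by omega)
    simp only [Bool.not_not] at h2
    have h3 : h (fun i => !x i) = f x := h2
    show f x = g x + (h (fun i => !x i) - g x) * _
    rw [h1, bv_true, h3]
    ring
  · have h1 : majF k x = false := by simp [majF, hx]
    rw [h1, bv_false, hgf x (by omega)]
    ring

end Pool.Agent.W2helper11.MC
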